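import Pool.Agent.helper28.EG.Spec
import Pool.Agent.helper38.V3.KO0
import Pool.Agent.helper89.V3.KO1
import Pool.Agent.helper23.V3.KO2
import Pool.Agent.helper70.V3.KO3

/-!
# Project p2x: (MP_70a088_an, P2), row LPR: landing at a point with multiplier one gives a short return (helper19)
-/

set_option autoImplicit false

open Complex Metric Set Filter Topology MeasureTheory
open WP (it)

noncomputable section

namespace EG

theorem LPR_step (g : ℂ → ℂ) (p : ℂ) (l : ℕ) (hg : Differentiable ℂ g) (hp : g p = p) (hd : deriv g p = 1) (hl : 0 < l) :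
    ∀ᶠ z in 𝓝 p, ‖g z - z‖ ≤ 3 / 2 * ‖g^[l] z - z‖ / l := by
  have hl' : (0 : ℝ) < l := by exact_mod_cast hl
  set φ : ℂ → ℂ := fun z => g z - z with hφ
  have hφd : Differentiable ℂ φ := hg.sub differentiable_id
  have hφ' : deriv φ p = 0 := by
    have h1 : HasDerivAt φ (deriv g p - 1) p := (hg p).hasDerivAt.sub (hasDerivAt_id p)
    rw [h1.deriv, hd, sub_self]
  have hcont : Continuous (deriv φ) := (hφd.contDiff (n := 1)).continuous_deriv le_rfl
  set δ : ℝ := Real.log (4 / 3) / l with hδ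
  have hlog : 0 < Real.log (4 / 3) := Real.log_pos (by norm_num)
  have hδ0 : 0 < δ := div_pos hlog hl'
  have hpow : (1 + δ) ^ l ≤ 4 / 3 := by
    have h1 : 1 + δ ≤ Real.exp δ := by
      have := Real.add_one_le_exp δ
      linarith
    calc (1 + δ) ^ l ≤ (Real.exp δ) ^ l := by gcongr
      _ = Real.exp (l * δ) := by rw [← Real.exp_nat_mul]
      _ = Real.exp (Real.log (4 / 3)) := by
          congr 1
          rw [hδ]
          field_simp
      _ = 4 / 3 := Real.exp_log (by norm_num)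
  have h1 : ∀ᶠ z in 𝓝 p, ‖deriv φ z‖ < δ := by
    have h2 : Tendsto (fun z => ‖deriv φ z‖) (𝓝 p) (𝓝 ‖deriv φ p‖) := hcont.norm.tendsto p
    rw [hφ', norm_zero] at h2
    exact h2.eventually (gt_mem_nhds hδ0)
  obtain ⟨r, hr, hball⟩ := Metric.eventually_nhds_iff_ball.1 h1
  have hlip : ∀ x ∈ ball p r, ∀ y ∈ ball p r, ‖φ y - φ x‖ ≤ δ * ‖y - x‖ := by
    intro x hx y hy
    exact (convex_ball p r).norm_image_sub_le_of_norm_deriv_le (fun z _ => hφd z) (fun z hz => (hball z hz).le) hx hy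
  have hfix : ∀ i : ℕ, g^[i] p = p := fun i => Function.iterate_fixed hp i
  have hev : ∀ᶠ z in 𝓝 p, ∀ i ∈ Finset.range (l + 1), g^[i] z ∈ ball p r := by
    rw [Filter.eventually_all_finset]
    intro i _
    have h2 : Tendsto (g^[i]) (𝓝 p) (𝓝 (g^[i] p)) := (hg.continuous.iterate i).tendsto p
    rw [hfix i] at h2
    exact h2.eventually (isOpen_ball.mem_nhds (mem_ball_self hr))
  filter_upwards [hev] with z hz
  have hmem : ∀ i, i ≤ l → g^[i] z ∈ ball p r := fun i hi => hz i (Finset.mem_range.2 (by omega))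
  have hstep : ∀ i, g^[i + 1] z - g^[i] z = φ (g^[i] z) := by
    intro i
    rw [Function.iterate_succ_apply']
  have hind : ∀ i, i ≤ l → ‖φ (g^[i] z) - φ z‖ ≤ ((1 + δ) ^ i - 1) * ‖φ z‖ := by
    intro i
    induction i with
    | zero =>
      intro _
      simp
    | succ i ih =>
      intro hi
      have hi' := ih (by omega)
      have a1 := hlip _ (hmem i (by omega)) _ (hmem (i + 1) hi)
      rw [hstep] at a1
      have a2 : ‖φ (g^[i] z)‖ ≤ (1 + δ) ^ i * ‖φ z‖ := by
        have b1 : φ (g^[i] z) = (φ (g^[i] z) - φ z) + φ z := by ring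
        have b2 := norm_add_le (φ (g^[i] z) - φ z) (φ z)
        rw [← b1] at b2
        linarith
      have a3 : φ (g^[i + 1] z) - φ z = (φ (g^[i + 1] z) - φ (g^[i] z)) + (φ (g^[i] z) - φ z) := by ring
      have a4 := norm_add_le (φ (g^[i + 1] z) - φ (g^[i] z)) (φ (g^[i] z) - φ z)
      rw [← a3] at a4
      have a5 : δ * ‖φ (g^[i] z)‖ ≤ δ * ((1 + δ) ^ i * ‖φ z‖) := by gcongr
      have a6 : ((1 + δ) ^ (i + 1) - 1) * ‖φ z‖ = δ * ((1 + δ) ^ i * ‖φ z‖) + ((1 + δ) ^ i - 1) * ‖φ z‖ := by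
        rw [pow_succ]
        ring
      rw [a6]
      linarith
  have hsum : g^[l] z - z = ∑ i ∈ Finset.range l, φ (g^[i] z) := by
    have h2 := Finset.sum_range_sub (fun i => g^[i] z) l
    simp only [Function.iterate_zero, id_eq] at h2
    rw [← h2]
    refine Finset.sum_congr rfl ?_
    intro i _
    exact hstep i
  have hdiff : ‖(g^[l] z - z) - l * φ z‖ ≤ l * (1 / 3 * ‖φ z‖) := by
    have h2 : (g^[l] z - z) - l * φ z = ∑ i ∈ Finset.range l, (φ (g^[i] z) - φ z) := by
      rw [Finset.sum_sub_distrib, ← hsum]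
      simp
    rw [h2]
    refine (norm_sum_le _ _).trans ?_
    have h3 : ∀ i ∈ Finset.range l, ‖φ (g^[i] z) - φ z‖ ≤ 1 / 3 * ‖φ z‖ := by
      intro i hi
      have hil : i ≤ l := (Finset.mem_range.1 hi).le
      refine (hind i hil).trans ?_
      have h4 : (1 + δ) ^ i ≤ (1 + δ) ^ l := pow_le_pow_right₀ (by linarith) hil
      have h5 : (1 + δ) ^ i - 1 ≤ 1 / 3 := by linarith
      gcongr
    refine (Finset.sum_le_sum h3).trans ?_
    rw [Finset.sum_const, Finset.card_range, nsmul_eq_mul]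
  have hfin : l * ‖φ z‖ ≤ ‖g^[l] z - z‖ + l * (1 / 3 * ‖φ z‖) := by
    have h2 : (l : ℂ) * φ z = (g^[l] z - z) - ((g^[l] z - z) - l * φ z) := by ring
    have h3 : ‖(l : ℂ) * φ z‖ = l * ‖φ z‖ := by
      rw [norm_mul, Complex.norm_natCast]
    rw [← h3, h2]
    refine (norm_sub_le _ _).trans ?_
    rw [← h2] at *
    linarith
  rw [le_div_iff₀ hl']
  have h6 : ‖g z - z‖ = ‖φ z‖ := rfl
  rw [h6]
  nlinarith

theorem LPR_back {F A : ℂ → ℂ} {y : ℂ} {c : ℝ} {ξ : ℕ → ℂ → ℂ} (h : Tube F A y c ξ) (j : ℕ) :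
    ∀ u ∈ ball y (2 * c), F^[j] (ξ j u) = ξ 0 u := by
  induction j with
  | zero =>
    intro u _
    rfl
  | succ j ih =>
    intro u hu
    rw [Function.iterate_succ_apply, h.bk j u hu]
    exact ih u hu

theorem LPR : LPR_stmt := by
  have hKO3 : V3.KO3_stmt := V3.KO3 V3.KO0 (V3.KO2 V3.KO0)
  obtain ⟨C₁, hC₁, hK1⟩ := V3.KO1
  obtain ⟨C₃, hC₃, hK3⟩ := hKO3 (1 / 2) (by norm_num) (by norm_num)
  refine ⟨2 * C₁ * C₃, by nlinarith, ?_⟩
  intro f a l A y c ξ p hdeg hl hPA hT hL hne w hw hsmall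
  obtain ⟨ha, hap, hader⟩ := hPA
  have hl' : (0 : ℝ) < l := by exact_mod_cast hl
  have hc := hT.c0
  have hgd : Differentiable ℂ (it f a) := by
    have h1 : ∀ k : ℕ, Differentiable ℂ (it f k) := by
      intro k
      induction k with
      | zero => exact differentiable_id
      | succ k ih =>
        have h : it f (k + 1) = fun z => f.eval (it f k z) := by
          funext z
          simp only [it, Function.iterate_succ_apply']
        rw [h]
        exact f.differentiable.comp ih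
    exact h1 a
  have hFg : (it f a)^[l] = it f (a * l) := by
    funext z
    have e3 : it f a = (fun w : ℂ => f.eval w)^[a] := by
      funext z
      rfl
    rw [e3, ← Function.iterate_mul]
    rfl
  have hwc : w ∈ ball y c := ball_subset_ball (by linarith) hw
  have hw2 : w ∈ ball y (2 * c) := ball_subset_ball (by linarith) hwc
  have hd0 : 0 < ‖A w - w‖ := by
    rw [norm_pos_iff, sub_ne_zero]
    exact hT.ne w hwc
  have hd1 : ‖A w - w‖ < c / 4 := hT.sm w hwc
  -- choose j
  have hev := LPR_step (it f a) p l hgd hap hader hl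
  obtain ⟨ρ, hρ, hρb⟩ := Metric.eventually_nhds_iff_ball.1 hev
  have hLu := (Metric.tendstoUniformlyOn_iff.1 hL) ρ hρ
  obtain ⟨j, hj⟩ := hLu.exists
  have hz : ξ j w ∈ ball p ρ := by
    have := hj w hwc
    rw [mem_ball, dist_comm]
    exact this
  have h1 := hρb _ hz
  rw [hFg, hT.com j w hwc] at h1
  -- Koebe
  have hsub : ball w c ⊆ ball y (2 * c) := by
    intro x hx
    rw [mem_ball] at hx hw ⊢
    have := dist_triangle x w y
    linarith
  have hdo : DifferentiableOn ℂ (ξ j) (ball w c) := (hT.hol j).mono hsub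
  have hio : InjOn (ξ j) (ball w c) := (hT.inj j).mono hsub
  have hG' : deriv (ξ j) w ≠ 0 := V3.KO0 (ξ j) (ball w c) isOpen_ball hdo hio w (mem_ball_self hc)
  have hG'p : 0 < ‖deriv (ξ j) w‖ := norm_pos_iff.mpr hG'
  have hAw : A w ∈ ball w ((1 - 1 / 2) * c) := by
    rw [mem_ball, dist_eq_norm]
    linarith
  have h3 := ((hK3 (ξ j) w c hc hdo hio).2 (A w) hAw).2.2.1
  set r : ℝ := 2 * C₁ * C₃ * ‖A w - w‖ / l with hr
  have hC₁0 : 0 < C₁ := by linarith
  have hC₃0 : 0 < C₃ := by linarith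
  have hr0 : 0 < r := by positivity
  have hrc : r < c / 2 := hsmall
  have hsub2 : ball w r ⊆ ball w c := ball_subset_ball (by linarith)
  have h4 := hK1 (ξ j) w r hr0 (hdo.mono hsub2) (hio.mono hsub2)
  have h5 : it f a (ξ j w) ∈ ball (ξ j w) (r * ‖deriv (ξ j) w‖ / C₁) := by
    rw [mem_ball, dist_eq_norm]
    refine lt_of_le_of_lt h1 ?_
    have h6 : 3 / 2 * ‖ξ j (A w) - ξ j w‖ / l ≤ 3 / 2 * (C₃ * ‖A w - w‖ * ‖deriv (ξ j) w‖) / l := by gcongr
    refine lt_of_le_of_lt h6 ?_
    have h7 : r * ‖deriv (ξ j) w‖ / C₁ = 2 * (C₃ * ‖A w - w‖ * ‖deriv (ξ j) w‖) / l := by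
      rw [hr]
      field_simp
    rw [h7]
    have h8 : 0 < C₃ * ‖A w - w‖ * ‖deriv (ξ j) w‖ := by positivity
    gcongr
    norm_num
  obtain ⟨u, hu, hue⟩ := h4 h5
  refine ⟨u, ?_, ?_⟩
  · rw [mem_ball, dist_eq_norm] at hu
    exact hu.le
  · have hu2 : u ∈ ball y (2 * c) := hsub (hsub2 hu)
    have e1 := LPR_back hT j w hw2
    have e2 := LPR_back hT j u hu2
    rw [← e1, ← e2, hue]
    have hcomm : ∀ x, it f a ((it f (a * l))^[j] x) = (it f (a * l))^[j] (it f a x) := by
      intro x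
      have hc1 : Function.Commute (it f a) (it f (a * l)) := by
        have e3 : it f a = (fun w : ℂ => f.eval w)^[a] := by
          funext z
          rfl
        have e4 : it f (a * l) = (fun w : ℂ => f.eval w)^[a * l] := by
          funext z
          rfl
        rw [e3, e4]
        exact (Function.Commute.refl _).iterate_iterate _ _
      exact (hc1.iterate_right j) x
    exact hcomm _

end EG
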